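import Pool.Agent.U644.IAQ.Chain

/-!
# The automorphisms `x_0 ↦ u x_0 v`
-/

namespace Pool.Agent.U644.IAQ

open FreeGroup (of)
open scoped commutatorElement

/-- The endomorphism `x_0 ↦ u x_0 v`, `x_1 ↦ x_1`, `x_2 ↦ x_2`. -/
def act (u v : FreeGroup (Fin 3)) : FreeGroup (Fin 3) →* FreeGroup (Fin 3) :=
  FreeGroup.lift ![u * of 0 * v, of 1, of 2]

theorem act_0 (u v : FreeGroup (Fin 3)) : act u v (of 0) = u * of 0 * v := by
  simp [act]

theorem act_1 (u v : FreeGroup (Fin 3)) : act u v (of 1) = of 1 := by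
  simp [act]

theorem act_2 (u v : FreeGroup (Fin 3)) : act u v (of 2) = of 2 := by
  simp [act]

/-- The elements fixed by all `act a b`. -/
def fixS : Subgroup (FreeGroup (Fin 3)) where
  carrier := {u | ∀ a b, act a b u = u}
  mul_mem' := by
    intro u v hu hv a b
    rw [map_mul, hu, hv]
  one_mem' := fun a b => map_one _
  inv_mem' := by
    intro u hu a b
    rw [map_inv, hu]

theorem act_act (a b : FreeGroup (Fin 3)) (u v : fixS) (g : FreeGroup (Fin 3)) :
    act a b (act u v g) = act (u * a) (b * v) g := by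
  have h : (act a b).comp (act u v) = act (u * a) (b * v) := by
    apply FreeGroup.ext_hom
    intro l
    fin_cases l
    · change act a b (act u v (of 0)) = act (u * a) (b * v) (of 0)
      rw [act_0, act_0, map_mul, map_mul, act_0, u.2, v.2]
      group
    · change act a b (act u v (of 1)) = act (u * a) (b * v) (of 1)
      rw [act_1, act_1, act_1]
    · change act a b (act u v (of 2)) = act (u * a) (b * v) (of 2)
      rw [act_2, act_2, act_2]
  exact DFunLike.congr_fun h g

theorem act_one (g : FreeGroup (Fin 3)) : act 1 1 g = g := by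
  have h : act 1 1 = MonoidHom.id _ := by
    apply FreeGroup.ext_hom
    intro l
    fin_cases l
    · change act 1 1 (of 0) = of 0
      rw [act_0]; group
    · exact act_1 _ _
    · exact act_2 _ _
  exact DFunLike.congr_fun h g

/-- The automorphism `x_0 ↦ u x_0 v`, `x_1 ↦ x_1`, `x_2 ↦ x_2`, for `u, v` in the subgroup generated
by `x_1, x_2`. -/
def mkA (u v : fixS) : MulAut (FreeGroup (Fin 3)) where
  toFun := act u v
  invFun := act (u⁻¹ : fixS) (v⁻¹ : fixS)
  left_inv g := by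
    rw [act_act, Subgroup.coe_inv, Subgroup.coe_inv, mul_inv_cancel, inv_mul_cancel, act_one]
  right_inv g := by
    rw [act_act, Subgroup.coe_inv, Subgroup.coe_inv, inv_mul_cancel, mul_inv_cancel, act_one]
  map_mul' := map_mul _

theorem mkA_apply (u v : fixS) (g : FreeGroup (Fin 3)) : mkA u v g = act u v g := rfl

theorem mkA_mul (a b u v : fixS) : mkA a b * mkA u v = mkA (u * a) (b * v) := by
  ext g
  rw [MulAut.mul_apply, mkA_apply, mkA_apply, mkA_apply, act_act]
  rfl

theorem mkA_one : mkA 1 1 = 1 := by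
  ext g
  rw [mkA_apply]
  exact act_one g

theorem mkA_inv (u v : fixS) : (mkA u v)⁻¹ = mkA u⁻¹ v⁻¹ := by
  rw [inv_eq_iff_mul_eq_one, mkA_mul, inv_mul_cancel, mul_inv_cancel, mkA_one]

theorem mkA_mem (u v : fixS)
    (h : Abelianization.of (u : FreeGroup (Fin 3)) * Abelianization.of (v : FreeGroup (Fin 3)) = 1) :
    mkA u v ∈ IA 3 := by
  have h1 : (Abelianization.of).comp (act u v) = Abelianization.of := by
    apply FreeGroup.ext_hom
    intro l
    fin_cases l
    · change Abelianization.of (act u v (of 0)) = Abelianization.of (of 0)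
      rw [act_0, map_mul, map_mul, mul_assoc, mul_comm, mul_assoc, mul_comm (Abelianization.of
        (v : FreeGroup (Fin 3))), h, mul_one]
    · change Abelianization.of (act u v (of 1)) = Abelianization.of (of 1)
      rw [act_1]
    · change Abelianization.of (act u v (of 2)) = Abelianization.of (of 2)
      rw [act_2]
  intro g
  exact DFunLike.congr_fun h1 g

/-- `x_1`. -/
def x1 : fixS := ⟨of 1, fun _ _ => act_1 _ _⟩

/-- `x_2`. -/
def x2 : fixS := ⟨of 2, fun _ _ => act_2 _ _⟩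

/-- `x_0 ↦ x_1⁻¹ x_0 x_1`. -/
def C1 : A3 := ⟨mkA x1⁻¹ x1, mkA_mem _ _ (by
  rw [Subgroup.coe_inv, map_inv, inv_mul_cancel])⟩

/-- `x_0 ↦ x_2⁻¹ x_0 x_2`. -/
def C2 : A3 := ⟨mkA x2⁻¹ x2, mkA_mem _ _ (by
  rw [Subgroup.coe_inv, map_inv, inv_mul_cancel])⟩

/-- `x_0 ↦ x_0 [x_1, x_2]`. -/
def MM : A3 := ⟨mkA 1 ⁅x1, x2⁆, mkA_mem _ _ (by
  rw [commutatorElement_def, Subgroup.coe_one, map_one, one_mul, Subgroup.coe_mul,
    Subgroup.coe_mul, Subgroup.coe_mul, Subgroup.coe_inv, Subgroup.coe_inv, map_mul, map_mul,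
    map_mul, map_inv, map_inv, mul_inv_eq_one, mul_inv_cancel_comm])⟩

theorem comm_eq_one : ⁅⁅C1, C2⁆, MM⁆ = 1 := by
  apply Subtype.ext
  simp only [commutatorElement_def, Subgroup.coe_mul, Subgroup.coe_inv, C1, C2, MM,
    mkA_inv, mkA_mul, Subgroup.coe_one, ← mkA_one]
  congr 1 <;> group

theorem m2_mkA (i a b : Fin 3) (u v : fixS) (h) :
    m2 i a b ⟨mkA u v, h⟩ = e2 a b (act u v (of i)) := rfl

theorem tA_C1 : tA C1 = 1 := by
  simp only [tA, C1, m2_mkA, act_0, act_2, e2_mul, e1_mul, e2_of, e1_of, e2_inv, e1_inv, x1,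
    Subgroup.coe_inv]
  decide

theorem tN_C1 : tN C1 = 0 := by
  simp only [tN, C1, m2_mkA, act_0, act_1, e2_mul, e1_mul, e2_of, e1_of, e2_inv, e1_inv, x1,
    Subgroup.coe_inv]
  decide

theorem tA_C2 : tA C2 = 0 := by
  simp only [tA, C2, m2_mkA, act_0, act_2, e2_mul, e1_mul, e2_of, e1_of, e2_inv, e1_inv, x2,
    Subgroup.coe_inv]
  decide

theorem tN_C2 : tN C2 = 1 := by
  simp only [tN, C2, m2_mkA, act_0, act_1, e2_mul, e1_mul, e2_of, e1_of, e2_inv, e1_inv, x2,
    Subgroup.coe_inv]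
  decide

theorem tA_MM : tA MM = 0 := by
  simp only [tA, MM, m2_mkA, act_0, act_2, e2_mul, e1_mul, e2_of, e1_of, e2_inv, e1_inv, x1, x2,
    Subgroup.coe_inv, Subgroup.coe_mul, Subgroup.coe_one, commutatorElement_def, e1_one, e2_one]
  decide

theorem tN_MM : tN MM = 1 := by
  simp only [tN, MM, m2_mkA, act_0, act_1, e2_mul, e1_mul, e2_of, e1_of, e2_inv, e1_inv, x1, x2,
    Subgroup.coe_inv, Subgroup.coe_mul, Subgroup.coe_one, commutatorElement_def, e1_one, e2_one]
  decide

end Pool.Agent.U644.IAQ
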