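import Pool.Agent.U644.IAQ.Magnus

/-!
# The Magnus coefficients of a composition of IA-automorphisms of the free group of rank three
-/

namespace Pool.Agent.U644.IAQ

open FreeGroup (of)

/-- An automorphism in `IA_3`. -/
abbrev A3 := IA 3

/-- Coefficient of the word `ab` in `φ (x_i)`. -/
def m2 (i a b : Fin 3) (φ : A3) : ℤ := e2 a b ((φ : MulAut (FreeGroup (Fin 3))) (of i))

/-- Coefficient of the word `abc` in `φ (x_i)`. -/
def m3 (i a b c : Fin 3) (φ : A3) : ℤ := e3 a b c ((φ : MulAut (FreeGroup (Fin 3))) (of i))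

/-- Exponent sums as a homomorphism. -/
def e1hom (a : Fin 3) : FreeGroup (Fin 3) →* Multiplicative ℤ where
  toFun g := Multiplicative.ofAdd (e1 a g)
  map_one' := by rw [e1_one]; rfl
  map_mul' g h := by rw [e1_mul]; rfl

theorem e1_eq_of_ab (a : Fin 3) {g h : FreeGroup (Fin 3)}
    (hgh : Abelianization.of g = Abelianization.of h) : e1 a g = e1 a h := by
  have h1 : ∀ x, Abelianization.lift (e1hom a) (Abelianization.of x) = e1hom a x := fun x =>
    Abelianization.lift_apply_of (e1hom a) x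
  have h2 : e1hom a g = e1hom a h := by rw [← h1, ← h1, hgh]
  exact h2

theorem e1_ia (a : Fin 3) (φ : A3) (g : FreeGroup (Fin 3)) :
    e1 a ((φ : MulAut (FreeGroup (Fin 3))) g) = e1 a g :=
  e1_eq_of_ab a (φ.2 g)

/-- Chain rule for the homomorphism computing Magnus coefficients. -/
theorem rho_ia (a b c : Fin 3) (φ : A3) (g : FreeGroup (Fin 3)) :
    rho a b c ((φ : MulAut (FreeGroup (Fin 3))) g) =
      ⟨e1 a g, e1 b g, e1 c g, e2 a b g + ∑ i, m2 i a b φ * e1 i g,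
        e2 b c g + ∑ i, m2 i b c φ * e1 i g,
        e3 a b c g + ∑ j, m2 j a b φ * e2 j c g + ∑ k, m2 k b c φ * e2 a k g +
          ∑ i, m3 i a b c φ * e1 i g⟩ := by
  let R : FreeGroup (Fin 3) →* U4 := MonoidHom.mk'
    (fun g => ⟨e1 a g, e1 b g, e1 c g, e2 a b g + ∑ i, m2 i a b φ * e1 i g,
        e2 b c g + ∑ i, m2 i b c φ * e1 i g,
        e3 a b c g + ∑ j, m2 j a b φ * e2 j c g + ∑ k, m2 k b c φ * e2 a k g +
          ∑ i, m3 i a b c φ * e1 i g⟩) (by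
      intro g h
      rw [U4.mul_def]
      simp only [e1_mul, e2_mul, e3_mul, Fin.sum_univ_three]
      ext <;> simp only [] <;> ring)
  have hR : (rho a b c).comp (φ : MulAut (FreeGroup (Fin 3))).toMonoidHom = R := by
    apply FreeGroup.ext_hom
    intro l
    change rho a b c ((φ : MulAut (FreeGroup (Fin 3))) (of l)) = ⟨_, _, _, _, _, _⟩
    rw [rho_eq, e1_ia, e1_ia, e1_ia]
    simp only [e2_of, e3_of, e1_of, mul_zero, Finset.sum_const_zero, add_zero, zero_add, mul_ite,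
      mul_one, Finset.sum_ite_eq, Finset.mem_univ, if_true]
    rfl
  exact DFunLike.congr_fun hR g

theorem e2_ia (a b : Fin 3) (φ : A3) (g : FreeGroup (Fin 3)) :
    e2 a b ((φ : MulAut (FreeGroup (Fin 3))) g) = e2 a b g + ∑ i, m2 i a b φ * e1 i g := by
  have := congrArg U4.s (rho_ia a b b φ g)
  rwa [rho_eq] at this

theorem e3_ia (a b c : Fin 3) (φ : A3) (g : FreeGroup (Fin 3)) :
    e3 a b c ((φ : MulAut (FreeGroup (Fin 3))) g) =
      e3 a b c g + ∑ j, m2 j a b φ * e2 j c g + ∑ k, m2 k b c φ * e2 a k g +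
          ∑ i, m3 i a b c φ * e1 i g := by
  have := congrArg U4.u (rho_ia a b c φ g)
  rwa [rho_eq] at this

theorem m2_mul (i a b : Fin 3) (φ ψ : A3) : m2 i a b (φ * ψ) = m2 i a b φ + m2 i a b ψ := by
  have h : m2 i a b (φ * ψ) = e2 a b ((φ : MulAut (FreeGroup (Fin 3)))
      ((ψ : MulAut (FreeGroup (Fin 3))) (of i))) := rfl
  rw [h, e2_ia]
  simp only [e1_ia, e1_of, mul_ite, mul_one, mul_zero, Finset.sum_ite_eq, Finset.mem_univ, if_true]
  exact add_comm _ _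

theorem m3_mul (i a b c : Fin 3) (φ ψ : A3) : m3 i a b c (φ * ψ) = m3 i a b c φ + m3 i a b c ψ +
    (∑ j, m2 j a b φ * m2 i j c ψ + ∑ k, m2 k b c φ * m2 i a k ψ) := by
  have h : m3 i a b c (φ * ψ) = e3 a b c ((φ : MulAut (FreeGroup (Fin 3)))
      ((ψ : MulAut (FreeGroup (Fin 3))) (of i))) := rfl
  rw [h, e3_ia]
  simp only [e1_ia, e1_of, mul_ite, mul_one, mul_zero, Finset.sum_ite_eq, Finset.mem_univ, if_true]
  change m3 i a b c ψ + ∑ j, m2 j a b φ * m2 i j c ψ + ∑ k, m2 k b c φ * m2 i a k ψ + _ = _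
  ring

theorem m2_self (i a : Fin 3) (φ : A3) : m2 i a a φ = 0 := by
  have h := shuffle_self a ((φ : MulAut (FreeGroup (Fin 3))) (of i))
  rw [e1_ia, e1_of] at h
  unfold m2
  split_ifs at h <;> omega

theorem m2_symm (i a b : Fin 3) (φ : A3) : m2 i a b φ = - m2 i b a φ := by
  rcases eq_or_ne a b with rfl | hab
  · rw [m2_self]; rfl
  · have h := shuffle hab ((φ : MulAut (FreeGroup (Fin 3))) (of i))
    rw [e1_ia, e1_ia, e1_of, e1_of] at h
    unfold m2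
    rcases eq_or_ne i a with rfl | hi
    · rw [if_neg hab, mul_zero] at h; omega
    · rw [if_neg hi, zero_mul] at h; omega

/-- The first class. -/
def tA (φ : A3) : ℤ := m2 0 0 1 φ + m2 2 1 2 φ

/-- The second class. -/
def tN (φ : A3) : ℤ := m2 0 0 2 φ - m2 1 1 2 φ + m2 0 1 2 φ

/-- A function whose coboundary is the bilinear form `BB`. -/
def FF (φ : A3) : ℤ := m3 0 1 1 2 φ + m3 0 0 1 2 φ - m3 1 1 1 2 φ

/-- The bilinear form. -/
def BB (φ ψ : A3) : ℤ :=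
  - m2 0 1 2 φ * m2 0 0 1 ψ + m2 2 1 2 φ * m2 0 1 2 ψ +
  (m2 0 0 1 φ * m2 0 0 2 ψ + m2 1 0 1 φ * m2 0 1 2 ψ + m2 1 1 2 φ * m2 0 0 1 ψ +
    m2 2 1 2 φ * m2 0 0 2 ψ + m2 0 1 2 φ * m2 1 0 1 ψ - m2 2 1 2 φ * m2 1 1 2 ψ)

theorem FF_mul (φ ψ : A3) : FF (φ * ψ) = FF φ + FF ψ + BB φ ψ := by
  unfold FF BB
  rw [m3_mul, m3_mul, m3_mul]
  simp only [Fin.sum_univ_three, m2_self, m2_symm 0 1 0, m2_symm 1 1 0]
  ring

theorem BB_anti (φ ψ : A3) : BB φ ψ - BB ψ φ = tA φ * tN ψ - tA ψ * tN φ := by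
  unfold BB tA tN
  ring

theorem BB_mul_left (φ φ' ψ : A3) : BB (φ * φ') ψ = BB φ ψ + BB φ' ψ := by
  unfold BB
  simp only [m2_mul]
  ring

theorem BB_mul_right (φ ψ ψ' : A3) : BB φ (ψ * ψ') = BB φ ψ + BB φ ψ' := by
  unfold BB
  simp only [m2_mul]
  ring

theorem tA_mul (φ ψ : A3) : tA (φ * ψ) = tA φ + tA ψ := by
  unfold tA
  simp only [m2_mul]
  ring

theorem tN_mul (φ ψ : A3) : tN (φ * ψ) = tN φ + tN ψ := by
  unfold tN
  simp only [m2_mul]
  ring

end Pool.Agent.U644.IAQ
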