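import Pool.Agent.H77R2.AssocLie

/-!
# Groups whose associated Lie ring is a free Lie ring modulo quadratic relations

`AssocLie G` is the associated Lie ring `E_0^*(G)` of the lower central series of `G`
(`Pool/Agent/H77R2/AssocLie.lean`), whose component of index `n` is `Γ_{n+1} G / Γ_{n+2} G`.
-/

namespace Pool.Agent.U644.IAQ

open BurnLie
open scoped commutatorElement

/-- `IA_n`: the automorphisms of the free group of rank `n` which induce the identity on its
abelianization. -/
def IA (n : ℕ) : Subgroup (MulAut (FreeGroup (Fin n))) where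
  carrier := {φ | ∀ g, Abelianization.of (φ g) = Abelianization.of g}
  mul_mem' := by
    intro a b ha hb g
    rw [MulAut.mul_apply, ha, hb]
  one_mem' := fun g => rfl
  inv_mem' := by
    intro a ha g
    have h := ha (a⁻¹ g)
    rw [MulAut.apply_inv_self] at h
    exact h.symm

noncomputable section

section Free

variable (V : Type*) [AddCommGroup V]

/-- The relations of the abelian group `V` among the generators of the free Lie ring on the
set `V`. -/
def addRelSet : Set (FreeLieAlgebra ℤ V) :=
  {x | ∃ a b : V, x = FreeLieAlgebra.of ℤ (a + b) -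
      (FreeLieAlgebra.of ℤ a + FreeLieAlgebra.of ℤ b)}

/-- The ideal of the free Lie ring on the set `V` generated by the relations of the abelian group
`V`. -/
def addRel : LieIdeal ℤ (FreeLieAlgebra ℤ V) :=
  LieSubmodule.lieSpan ℤ (FreeLieAlgebra ℤ V) (addRelSet V)

/-- The free Lie ring `L[V]` on the abelian group `V`. -/
def FLie : Type _ := FreeLieAlgebra ℤ V ⧸ addRel V

instance instFLie : LieRing (FLie V) := LieSubmodule.Quotient.lieQuotientLieRing (addRel V)

end Free

section

variable {V : Type*} [AddCommGroup V]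

/-- The projection from the free Lie ring on the set `V` onto `L[V]`. -/
def toFLie (x : FreeLieAlgebra ℤ V) : FLie V :=
  (LieSubmodule.Quotient.mk x : FreeLieAlgebra ℤ V ⧸ addRel V)

theorem toFLie_eq_iff (x y : FreeLieAlgebra ℤ V) :
    toFLie x = toFLie y ↔ x - y ∈ addRel V :=
  Submodule.Quotient.eq _

theorem toFLie_add (x y : FreeLieAlgebra ℤ V) : toFLie (x + y) = toFLie x + toFLie y := rfl

theorem toFLie_lie (x y : FreeLieAlgebra ℤ V) : toFLie ⁅x, y⁆ = ⁅toFLie x, toFLie y⁆ := rfl

theorem toFLie_surj (x : FLie V) : ∃ y, toFLie y = x :=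
  Submodule.Quotient.mk_surjective _ x

theorem inc_aux (a b : V) : toFLie (FreeLieAlgebra.of ℤ (a + b)) =
    toFLie (FreeLieAlgebra.of ℤ a) + toFLie (FreeLieAlgebra.of ℤ b) := by
  rw [← toFLie_add, toFLie_eq_iff]
  exact LieSubmodule.subset_lieSpan ⟨a, b, rfl⟩

/-- The inclusion of `V` into `L[V]`. -/
def inc : V →+ FLie V := AddMonoidHom.mk' (fun a => toFLie (FreeLieAlgebra.of ℤ a)) inc_aux

theorem inc_apply (a : V) : inc a = toFLie (FreeLieAlgebra.of ℤ a) := rfl

variable {L : Type*} [LieRing L]

/-- The extension to the free Lie ring on the set `V`. -/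
def lift0 (f : V →+ L) := FreeLieAlgebra.lift ℤ (f : V → L)

theorem lift0_of (f : V →+ L) (a : V) : lift0 f (FreeLieAlgebra.of ℤ a) = f a :=
  FreeLieAlgebra.lift_of_apply _ _

theorem lift0_rel (f : V →+ L) (x : FreeLieAlgebra ℤ V) (hx : x ∈ addRel V) : lift0 f x = 0 := by
  have h : addRel V ≤ (lift0 f).ker := by
    refine LieSubmodule.lieSpan_le.mpr ?_
    rintro x ⟨a, b, rfl⟩
    change _ ∈ (lift0 f).ker
    rw [LieHom.mem_ker, map_sub, map_add, lift0_of, lift0_of, lift0_of, map_add, sub_self]
  exact LieHom.mem_ker.mp (h hx)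

theorem lift0_congr (f : V →+ L) (x y : FreeLieAlgebra ℤ V) (h : x - y ∈ addRel V) :
    lift0 f x = lift0 f y := by
  rw [← sub_eq_zero, ← map_sub]
  exact lift0_rel f _ h

/-- The extension to `L[V]`, as a function. -/
def liftFun (f : V →+ L) (x : FLie V) : L := lift0 f (Function.surjInv toFLie_surj x)

theorem liftFun_to (f : V →+ L) (x : FreeLieAlgebra ℤ V) : liftFun f (toFLie x) = lift0 f x :=
  lift0_congr f _ _ ((toFLie_eq_iff _ _).mp (Function.surjInv_eq toFLie_surj (toFLie x)))

theorem liftFun_add (f : V →+ L) (x y : FLie V) : liftFun f (x + y) = liftFun f x + liftFun f y := by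
  obtain ⟨x, rfl⟩ := toFLie_surj x
  obtain ⟨y, rfl⟩ := toFLie_surj y
  rw [← toFLie_add, liftFun_to, liftFun_to, liftFun_to, map_add]

theorem liftFun_lie (f : V →+ L) (x y : FLie V) : liftFun f ⁅x, y⁆ = ⁅liftFun f x, liftFun f y⁆ := by
  obtain ⟨x, rfl⟩ := toFLie_surj x
  obtain ⟨y, rfl⟩ := toFLie_surj y
  rw [← toFLie_lie, liftFun_to, liftFun_to, liftFun_to, LieHom.map_lie]

theorem liftFun_smul (f : V →+ L) (k : ℤ) (x : FLie V) : liftFun f (k • x) = k • liftFun f x :=
  map_zsmul (AddMonoidHom.mk' (liftFun f) (liftFun_add f)) k x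

/-- The universal property of `L[V]`: an additive map from `V` to a Lie ring extends to a
homomorphism of Lie rings from `L[V]`. -/
def lift (f : V →+ L) : FLie V →ₗ⁅ℤ⁆ L where
  toFun := liftFun f
  map_add' := liftFun_add f
  map_smul' := liftFun_smul f
  map_lie' := liftFun_lie f _ _

theorem lift_inc (f : V →+ L) (a : V) : lift f (inc a) = f a := by
  change liftFun f (toFLie (FreeLieAlgebra.of ℤ a)) = f a
  rw [liftFun_to, lift0_of]

/-- `inc` and `lift` have the universal property of the free Lie ring on the abelian group `V`. -/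
theorem lift_unique (f : V →+ L) (F : FLie V →ₗ⁅ℤ⁆ L) (h : ∀ a, F (inc a) = f a) : F = lift f := by
  apply LieHom.ext
  intro x
  obtain ⟨x, rfl⟩ := toFLie_surj x
  let p : FreeLieAlgebra ℤ V →ₗ⁅ℤ⁆ FLie V :=
    { toFun := toFLie
      map_add' := toFLie_add
      map_smul' := fun k x => map_zsmul (AddMonoidHom.mk' toFLie toFLie_add) k x
      map_lie' := toFLie_lie _ _ }
  have h1 : F.comp p = (lift f).comp p := by
    apply FreeLieAlgebra.hom_ext
    intro a
    change F (inc a) = lift f (inc a)
    rw [h, lift_inc]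
  exact LieHom.congr_fun h1 x

end

/-- The degree-two part `L_2[V]` of the free Lie ring `L[V]`: the additive subgroup generated by the
brackets of two elements of `V`. -/
def L2 (V : Type*) [AddCommGroup V] : AddSubgroup (FLie V) :=
  AddSubgroup.closure {x | ∃ a b : V, x = ⁅inc a, inc b⁆}

section Group

variable (G : Type*) [Group G]

/-- The natural map `L[V] → E_0^*(G)`, `V = G / [G, G] = Γ_1 G / Γ_2 G`, which is the identity
on `V`. -/
def natMap : FLie (Grd G 0) →ₗ⁅ℤ⁆ AssocLie G := lift (ofL 0)

/-- The degree-two part of the kernel of `L[V] → E_0^*(G)`. -/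
def quadRel : Set (FLie (Grd G 0)) := {x | x ∈ L2 (Grd G 0) ∧ natMap G x = 0}

/-- The Lie ideal of `L[V]` generated by the degree-two part of the kernel of
`L[V] → E_0^*(G)`. -/
def quadIdeal : LieIdeal ℤ (FLie (Grd G 0)) :=
  LieSubmodule.lieSpan ℤ (FLie (Grd G 0)) (quadRel G)

/-- `E_0^*(G)` is a free Lie ring modulo quadratic relations: the kernel of `L[V] → E_0^*(G)` is
generated as a Lie ideal by its degree-two part. -/
def IsQuadratic : Prop := (natMap G).ker = quadIdeal G

/-- The kernel of `L[V] → E_0^*(G)` contains an element no non-zero multiple of which lies in the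
Lie ideal generated by the degree-two part of the kernel. -/
def NotRationallyQuadratic : Prop :=
  ∃ x : FLie (Grd G 0), natMap G x = 0 ∧ ∀ k : ℤ, k ≠ 0 → k • x ∉ quadIdeal G

end Group

end

end Pool.Agent.U644.IAQ
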