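import Pool.Agent.U644.IAQ.Defs

/-!
# Low degree Magnus coefficients

`U4` is the group of upper unitriangular integral `4 × 4` matrices; the homomorphism
`rho a b c : F → U4` computes the Magnus coefficients of the words `a, b, c, ab, bc, abc`.
-/

namespace Pool.Agent.U644.IAQ

/-- Upper unitriangular integral matrices: `p, q, r` are the entries `(1,2), (2,3), (3,4)`, `s, t`
the entries `(1,3), (2,4)`, and `u` the entry `(1,4)`. -/
@[ext] structure U4 where
  p : ℤ
  q : ℤ
  r : ℤ
  s : ℤ
  t : ℤ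
  u : ℤ

namespace U4

instance : Mul U4 := ⟨fun x y => ⟨x.p + y.p, x.q + y.q, x.r + y.r, x.s + y.s + x.p * y.q,
  x.t + y.t + x.q * y.r, x.u + y.u + x.p * y.t + x.s * y.r⟩⟩

instance : One U4 := ⟨⟨0, 0, 0, 0, 0, 0⟩⟩

instance : Inv U4 := ⟨fun x => ⟨-x.p, -x.q, -x.r, -x.s + x.p * x.q, -x.t + x.q * x.r,
  -x.u + x.p * x.t + x.s * x.r - x.p * x.q * x.r⟩⟩

theorem mul_def (x y : U4) : x * y = ⟨x.p + y.p, x.q + y.q, x.r + y.r, x.s + y.s + x.p * y.q,
  x.t + y.t + x.q * y.r, x.u + y.u + x.p * y.t + x.s * y.r⟩ := rfl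

theorem one_def : (1 : U4) = ⟨0, 0, 0, 0, 0, 0⟩ := rfl

theorem inv_def (x : U4) : x⁻¹ = ⟨-x.p, -x.q, -x.r, -x.s + x.p * x.q, -x.t + x.q * x.r,
  -x.u + x.p * x.t + x.s * x.r - x.p * x.q * x.r⟩ := rfl

instance : Group U4 := Group.ofLeftAxioms
  (by intro x y z; simp only [mul_def]; ext <;> simp only [] <;> ring)
  (by intro x; simp only [mul_def, one_def]; ext <;> simp)
  (by intro x; simp only [mul_def, one_def, inv_def]; ext <;> simp only [] <;> ring)

end U4

variable {X : Type*} [DecidableEq X]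

/-- The representation computing the Magnus coefficients of the words `a, b, c, ab, bc, abc`. -/
def rho (a b c : X) : FreeGroup X →* U4 :=
  FreeGroup.lift fun i => ⟨if i = a then 1 else 0, if i = b then 1 else 0,
    if i = c then 1 else 0, 0, 0, 0⟩

/-- Magnus coefficient of the word `a`. -/
def e1 (a : X) (g : FreeGroup X) : ℤ := (rho a a a g).p

/-- Magnus coefficient of the word `ab`. -/
def e2 (a b : X) (g : FreeGroup X) : ℤ := (rho a b b g).s

/-- Magnus coefficient of the word `abc`. -/
def e3 (a b c : X) (g : FreeGroup X) : ℤ := (rho a b c g).u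

theorem rho_eq (a b c : X) (g : FreeGroup X) :
    rho a b c g = ⟨e1 a g, e1 b g, e1 c g, e2 a b g, e2 b c g, e3 a b c g⟩ := by
  have key : (rho a b c g).p = e1 a g ∧ (rho a b c g).q = e1 b g ∧ (rho a b c g).r = e1 c g ∧
      (rho a b c g).s = e2 a b g ∧ (rho a b c g).t = e2 b c g ∧
      (rho a b b g).p = e1 a g ∧ (rho a b b g).q = e1 b g ∧
      (rho b c c g).p = e1 b g ∧ (rho b c c g).q = e1 c g := by
    simp only [e1, e2]
    induction g using FreeGroup.induction_on with
    | C1 => simp [map_one, U4.one_def]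
    | of x => simp [rho]
    | inv_of x h => 
      simp only [map_inv, U4.inv_def] at h ⊢
      obtain ⟨h1, h2, h3, h4, h5, h6, h7, h8, h9⟩ := h
      simp only [h1, h2, h3, h4, h5, h6, h7, h8, h9]
      simp
    | mul x y hx hy =>
      obtain ⟨h1, h2, h3, h4, h5, h6, h7, h8, h9⟩ := hx
      obtain ⟨k1, k2, k3, k4, k5, k6, k7, k8, k9⟩ := hy
      simp only [map_mul, U4.mul_def, h1, h2, h3, h4, h5, h6, h7, h8, h9, k1, k2, k3, k4, k5, k6,
        k7, k8, k9]
      simp
  obtain ⟨h1, h2, h3, h4, h5, -⟩ := key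
  ext
  · exact h1
  · exact h2
  · exact h3
  · exact h4
  · exact h5
  · rfl

theorem e1_mul (a : X) (g h : FreeGroup X) : e1 a (g * h) = e1 a g + e1 a h := by
  simp only [e1, map_mul, U4.mul_def]

theorem e2_mul (a b : X) (g h : FreeGroup X) :
    e2 a b (g * h) = e2 a b g + e2 a b h + e1 a g * e1 b h := by
  have := congrArg U4.s (map_mul (rho a b b) g h)
  rw [rho_eq, rho_eq, rho_eq, U4.mul_def] at this
  exact this

theorem e3_mul (a b c : X) (g h : FreeGroup X) :
    e3 a b c (g * h) = e3 a b c g + e3 a b c h + e1 a g * e2 b c h + e2 a b g * e1 c h := by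
  have := congrArg U4.u (map_mul (rho a b c) g h)
  rw [rho_eq, rho_eq, rho_eq, U4.mul_def] at this
  exact this

theorem e1_of (a i : X) : e1 a (FreeGroup.of i) = if i = a then 1 else 0 := by
  simp [e1, rho]

theorem e2_of (a b i : X) : e2 a b (FreeGroup.of i) = 0 := by
  simp [e2, rho]

theorem e3_of (a b c i : X) : e3 a b c (FreeGroup.of i) = 0 := by
  simp [e3, rho]

theorem e1_one (a : X) : e1 a (1 : FreeGroup X) = 0 := by simp [e1, U4.one_def]

theorem e2_one (a b : X) : e2 a b (1 : FreeGroup X) = 0 := by simp [e2, U4.one_def]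

theorem e1_inv (a : X) (g : FreeGroup X) : e1 a g⁻¹ = - e1 a g := by
  simp only [e1, map_inv, U4.inv_def]

theorem e2_inv (a b : X) (g : FreeGroup X) : e2 a b g⁻¹ = - e2 a b g + e1 a g * e1 b g := by
  have := congrArg U4.s (map_inv (rho a b b) g)
  rw [rho_eq, rho_eq, U4.inv_def] at this
  exact this

/-- Shuffle relation for two different letters. -/
theorem shuffle {a b : X} (hab : a ≠ b) (g : FreeGroup X) :
    e2 a b g + e2 b a g = e1 a g * e1 b g := by
  induction g using FreeGroup.induction_on with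
  | C1 => simp [e1_one, e2_one]
  | of x =>
    simp only [e1_of, e2_of]
    rcases eq_or_ne x a with rfl | h
    · simp [hab]
    · simp [h]
  | inv_of x h => simp only [e2_inv, e1_inv]; linear_combination -h
  | mul x y hx hy => simp only [e2_mul, e1_mul]; linear_combination hx + hy

theorem shuffle_self (a : X) (g : FreeGroup X) :
    2 * e2 a a g = e1 a g * e1 a g - e1 a g := by
  induction g using FreeGroup.induction_on with
  | C1 => simp [e1_one, e2_one]
  | of x =>
    simp only [e1_of, e2_of]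
    rcases eq_or_ne x a with rfl | h
    · simp
    · simp [h]
  | inv_of x h => simp only [e2_inv, e1_inv]; linear_combination -h
  | mul x y hx hy => simp only [e2_mul, e1_mul]; linear_combination hx + hy

end Pool.Agent.U644.IAQ
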