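import Pool.Agent.U644.IAQ.Autos

/-!
# The associated Lie ring of `IA_3` is not quadratic
-/

namespace Pool.Agent.U644.IAQ

open BurnLie
open scoped commutatorElement

attribute [local instance 100] LieRing.ofAssociativeRing

section General

variable {G : Type*} [Group G]

/-- An additive function on `γ_{n+1}` which vanishes on `γ_{n+2}` induces a homomorphism of the
graded piece. -/
noncomputable def grLift (n : ℕ) (f : G → ℤ) (hm : ∀ g h : lcs G n, f (g * h) = f g + f h)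
    (h0 : ∀ g ∈ lcs G (n + 1), f g = 0) : Grd G n →+ ℤ :=
  AddMonoidHom.mk' (fun x => Quotient.liftOn' (Additive.toMul x : QL G n) (fun g => f g) (by
    intro g h hgh
    rw [QuotientGroup.leftRel_apply, Subgroup.mem_subgroupOf] at hgh
    have h1 := hm g (g⁻¹ * h)
    have h2 := h0 _ hgh
    rw [h2, add_zero] at h1
    change f g = f h
    rw [← h1]
    congr 1
    rw [Subgroup.coe_mul, Subgroup.coe_inv]; group)) (by
    intro x y
    obtain ⟨g, rfl⟩ := grMk_surj n x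
    obtain ⟨h, rfl⟩ := grMk_surj n y
    exact hm g h)

theorem grLift_mk (n : ℕ) (f : G → ℤ) (hm : ∀ g h : lcs G n, f (g * h) = f g + f h)
    (h0 : ∀ g ∈ lcs G (n + 1), f g = 0) (g : lcs G n) : grLift n f hm h0 (grMk n g) = f g := rfl

theorem hom_zero {f : G → ℤ} (hm : ∀ g h, f (g * h) = f g + f h) {g : G} (hg : g ∈ lcs G 1) :
    f g = 0 := by
  have h1 : f 1 = 0 := by have := hm 1 1; rw [mul_one] at this; omega
  have hinv : ∀ g, f g⁻¹ = - f g := by
    intro g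
    have := hm g g⁻¹
    rw [mul_inv_cancel, h1] at this
    omega
  rw [lcs, Subgroup.mem_lowerCentralSeries_succ_iff] at hg
  induction hg using Subgroup.closure_induction with
  | mem x hx =>
    obtain ⟨p, -, q, -, rfl⟩ := hx
    rw [commutatorElement_def, hm, hm, hm, hinv, hinv]; ring
  | one => exact h1
  | mul x y _ _ hx hy => rw [hm, hx, hy]; rfl
  | inv x _ hx => rw [hinv, hx]; rfl

end General

theorem BB_left {φ : A3} (h : φ ∈ lcs A3 1) (ψ : A3) : BB φ ψ = 0 :=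
  hom_zero (f := fun φ => BB φ ψ) (fun a b => BB_mul_left a b ψ) h

theorem BB_right {ψ : A3} (h : ψ ∈ lcs A3 1) (φ : A3) : BB φ ψ = 0 :=
  hom_zero (f := fun ψ => BB φ ψ) (fun a b => BB_mul_right φ a b) h

theorem comm_mem_one (φ ψ : A3) : ⁅φ, ψ⁆ ∈ lcs A3 1 :=
  lcs_comm_mem (m := 0) (n := 0) (Subgroup.mem_top φ) (Subgroup.mem_top ψ)

theorem FF_comm (φ ψ : A3) : FF ⁅φ, ψ⁆ = tA φ * tN ψ - tA ψ * tN φ := by
  rw [← BB_anti]
  have h1 : φ * ψ = ⁅φ, ψ⁆ * (ψ * φ) := by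
    rw [commutatorElement_def]; group
  have h2 := FF_mul φ ψ
  rw [h1, FF_mul, BB_left (comm_mem_one φ ψ), FF_mul ψ φ] at h2
  linarith

theorem FF_one : FF 1 = 0 := by
  have h := FF_mul 1 1
  rw [mul_one, BB_left (one_mem _)] at h
  omega

theorem FF_add (g h : lcs A3 1) : FF (g * h) = FF g + FF h := by
  rw [FF_mul, BB_left g.2, add_zero]

theorem FF_zero {g : A3} (hg : g ∈ lcs A3 2) : FF g = 0 := by
  suffices h : g ∈ lcs A3 1 ∧ FF g = 0 from h.2
  rw [lcs, Subgroup.mem_lowerCentralSeries_succ_iff] at hg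
  induction hg using Subgroup.closure_induction with
  | mem x hx =>
    obtain ⟨p, hp, q, -, rfl⟩ := hx
    refine ⟨comm_mem_one p q, ?_⟩
    rw [FF_comm, hom_zero tA_mul hp, hom_zero tN_mul hp]
    ring
  | one => exact ⟨one_mem _, FF_one⟩
  | mul x y _ _ hx hy =>
    refine ⟨mul_mem hx.1 hy.1, ?_⟩
    rw [FF_mul, BB_left hx.1, hx.2, hy.2]; rfl
  | inv x _ hx =>
    refine ⟨inv_mem hx.1, ?_⟩
    have := FF_mul x x⁻¹
    rw [mul_inv_cancel, FF_one, BB_left hx.1, hx.2] at this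
    omega

/-- `V = IA_3 / [IA_3, IA_3]`. -/
abbrev VV := Grd A3 0

/-- The class `tA` on `V`. -/
noncomputable def thA : VV →+ ℤ := grLift 0 tA (fun g h => tA_mul g h) (fun _ hg =>
  hom_zero tA_mul hg)

/-- The class `tN` on `V`. -/
noncomputable def thN : VV →+ ℤ := grLift 0 tN (fun g h => tN_mul g h) (fun _ hg =>
  hom_zero tN_mul hg)

/-- The class `FF` on the degree-two part. -/
noncomputable def thF : Grd A3 1 →+ ℤ := grLift 1 FF FF_add (fun _ hg => FF_zero hg)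

/-- The class `FF` on the associated Lie ring. -/
noncomputable def comp1 : (n : ℕ) → Grd A3 n →+ ℤ
  | 1 => thF
  | _ => 0

/-- The class `FF` on the associated Lie ring. -/
noncomputable def thTot : AssocLie A3 →+ ℤ := DirectSum.toAddMonoid comp1

theorem thTot_of (x : Grd A3 1) : thTot (ofL 1 x) = thF x :=
  DirectSum.toAddMonoid_of comp1 1 x

/-- The class of an element in `V`. -/
def cls (φ : A3) : VV := grMk 0 ⟨φ, Subgroup.mem_top φ⟩

theorem cls_surj (a : VV) : ∃ φ, cls φ = a := by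
  obtain ⟨g, rfl⟩ := grMk_surj 0 a
  exact ⟨g, rfl⟩

theorem thA_cls (φ : A3) : thA (cls φ) = tA φ := rfl

theorem thN_cls (φ : A3) : thN (cls φ) = tN φ := rfl

theorem natMap_inc (φ : A3) : natMap A3 (inc (cls φ)) = mkL 0 ⟨φ, Subgroup.mem_top φ⟩ :=
  lift_inc _ _

theorem lie_mkL (m n : ℕ) (g : lcs A3 m) (h : lcs A3 n) :
    ⁅mkL m g, mkL n h⁆ = mkL (m + n + 1) ⟨⁅(g : A3), (h : A3)⁆, lcs_comm_mem g.2 h.2⟩ :=
  lieHom_mkL m n g h

theorem natMap_lie (φ ψ : A3) : natMap A3 ⁅inc (cls φ), inc (cls ψ)⁆ =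
    mkL 1 ⟨⁅φ, ψ⁆, comm_mem_one φ ψ⟩ := by
  rw [LieHom.map_lie, natMap_inc, natMap_inc, lie_mkL]

/-- The Lie ring of integral matrices. -/
abbrev TT := Matrix (Fin 4) (Fin 4) ℤ

/-- A matrix. -/
def mA : TT := !![0, 0, 0, 0; 0, 0, 0, 0; 0, 0, 0, 1; 0, 0, 0, 0]

/-- A matrix. -/
def mN : TT := !![0, 1, 0, 0; 0, 0, 1, 0; 0, 0, 0, 0; 0, 0, 0, 0]

/-- The additive map from `V`. -/
noncomputable def psi0 : VV →+ TT := AddMonoidHom.mk' (fun a => thA a • mA + thN a • mN) (by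
  intro a b
  rw [map_add, map_add, add_smul, add_smul]
  abel)

/-- The Lie homomorphism from `L[V]`. -/
noncomputable def psi : FLie VV →ₗ⁅ℤ⁆ TT := lift psi0

theorem psi_inc (a : VV) : psi (inc a) = thA a • mA + thN a • mN := lift_inc _ _

theorem bracket_aux {R : Type*} [Ring R] (A N : R) (a b c d : ℤ) :
    (a • A + b • N) * (c • A + d • N) - (c • A + d • N) * (a • A + b • N) =
      (a * d - c * b) • (A * N - N * A) := by
  simp only [add_mul, mul_add, smul_mul_smul_comm]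
  module

theorem psi_lie (a b : VV) : psi ⁅inc a, inc b⁆ = (thA a * thN b - thA b * thN a) • ⁅mA, mN⁆ := by
  rw [LieHom.map_lie, psi_inc, psi_inc]
  rw [Ring.lie_def, Ring.lie_def]
  exact bracket_aux _ _ _ _ _ _

theorem psi_L2 {x : FLie VV} (hx : x ∈ L2 VV) : psi x = thTot (natMap A3 x) • ⁅mA, mN⁆ := by
  unfold L2 at hx
  induction hx using AddSubgroup.closure_induction with
  | mem x hx =>
    obtain ⟨a, b, rfl⟩ := hx
    obtain ⟨φ, rfl⟩ := cls_surj a
    obtain ⟨ψ, rfl⟩ := cls_surj b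
    rw [psi_lie, natMap_lie]
    congr 1
    rw [thA_cls, thA_cls, thN_cls, thN_cls, ← FF_comm]
    exact (thTot_of (grMk 1 ⟨⁅φ, ψ⁆, comm_mem_one φ ψ⟩)).symm
  | zero => simp
  | add x y _ _ hx hy => rw [map_add, map_add, map_add, hx, hy, add_smul]
  | neg x _ hx => rw [map_neg, map_neg, map_neg, hx, neg_smul]

theorem quadIdeal_le : quadIdeal A3 ≤ psi.ker := by
  refine LieSubmodule.lieSpan_le.mpr ?_
  rintro x ⟨hx, hx0⟩
  change x ∈ psi.ker
  rw [LieHom.mem_ker, psi_L2 hx, hx0, map_zero, zero_smul]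

/-- The relation of degree three. -/
noncomputable def rel3 : FLie VV := ⁅⁅inc (cls C1), inc (cls C2)⁆, inc (cls MM)⁆

theorem rel3_zero : natMap A3 rel3 = 0 := by
  unfold rel3
  rw [LieHom.map_lie, natMap_lie, natMap_inc, lie_mkL]
  exact (mkL_congr rfl (g' := (1 : lcs A3 (1 + 0 + 1))) comm_eq_one).trans (mkL_one _)

theorem psi_rel3 : psi rel3 = ⁅⁅mA, mN⁆, mN⁆ := by
  unfold rel3
  rw [LieHom.map_lie, psi_lie, psi_inc]
  rw [thA_cls, thA_cls, thN_cls, thN_cls, thA_cls, thN_cls, tA_C1, tA_C2, tA_MM, tN_C1, tN_C2,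
    tN_MM, zero_smul, one_smul, zero_add, mul_one, zero_mul, sub_zero, one_smul]

theorem lie_ne : ⁅⁅mA, mN⁆, mN⁆ 0 3 = (1 : ℤ) := by
  simp only [Ring.lie_def, mA, mN]
  decide

theorem not_mem {k : ℤ} (hk : k ≠ 0) : k • rel3 ∉ quadIdeal A3 := by
  intro h
  have h1 := quadIdeal_le h
  rw [LieHom.mem_ker, map_smul, psi_rel3] at h1
  have h2 := congrArg (fun M : TT => M 0 3) h1
  change k • (⁅⁅mA, mN⁆, mN⁆ 0 3 : ℤ) = 0 at h2
  rw [lie_ne] at h2
  apply hk
  simpa using h2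

theorem main : ¬ IsQuadratic (IA 3) ∧ NotRationallyQuadratic (IA 3) := by
  refine ⟨?_, rel3, rel3_zero, fun k hk => not_mem hk⟩
  intro h
  have h1 : rel3 ∈ (natMap A3).ker := by
    rw [LieHom.mem_ker]; exact rel3_zero
  rw [h] at h1
  exact not_mem one_ne_zero (by rwa [one_smul])

end Pool.Agent.U644.IAQ
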